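import Pool.Agent.H543.DP.BilF
import Pool.Graph.R_seed8.W366.DC.SFX
import Pool.Graph.R_seed8.Y445.JRB.Buch

/-!
# Quadratic polynomials in short intervals and in residue classes, beyond the level one

Let `f = a t ^ 2 + b t + c` be any admissible quadratic polynomial (the polynomials of Conjecture F).
For the values `f n`, where `n` runs over the integers of `(X, X + H]` in a class `r` modulo `Q` with
`f r` prime to `Q`, uniformly in `X ^ (1 - δ) ≤ H ≤ X / 2` and in all `Q ≤ X ^ δ`, we prove: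
equidistribution in bilinear form for the moduli up to `X ^ θ`, every `θ < 13 / 12`; the theorem of
Jurkat and Richert with every such level; the prime values are at most `48 / 13 + ε` times the number
of Conjecture F; `≫ H / (Q log X)` of the values have no prime factor `≤ n ^ η`, for every
`η < 13 / 24`; `≫ H / (Q log X)` of the values have at most two prime factors; and the least `n` of
the class whose value has at most two prime factors is `≪ Q ^ L`.
-/

set_option autoImplicit false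

namespace Pool.Agent.Results.MP_a17b09_nt.BeyondLevelOneInClasses

open Filter Finset Topology

/-- The functions of the linear sieve (Jurkat and Richert): the continuous solutions on `[1, ∞)` of
`s F(s) = 2 e ^ γ` for `1 ≤ s ≤ 3`, `f(s) = 0` for `1 ≤ s ≤ 2`, `(s F(s))' = f(s - 1)` for `s ≥ 3`
and `(s f(s))' = F(s - 1)` for `s ≥ 2`. -/
structure LinearSieve (F f : ℝ → ℝ) : Prop where
  continuous_upper : ContinuousOn F (Set.Ici 1)
  continuous_lower : ContinuousOn f (Set.Ici 1)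
  start_upper : ∀ s : ℝ, 1 ≤ s → s ≤ 3 → s * F s = 2 * Real.exp Real.eulerMascheroniConstant
  start_lower : ∀ s : ℝ, 1 ≤ s → s ≤ 2 → f s = 0
  upper : ∀ s : ℝ, 3 ≤ s →
    s * F s = 2 * Real.exp Real.eulerMascheroniConstant + ∫ x in (3 : ℝ)..s, f (x - 1)
  lower : ∀ s : ℝ, 2 ≤ s → s * f s = ∫ x in (2 : ℝ)..s, F (x - 1)

/-- The polynomial `f(t) = a t ^ 2 + b t + c`. -/
def val (a b c t : ℤ) : ℤ := a * t ^ 2 + b * t + c

/-- The admissible triples of the page. -/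
structure Admissible (a b c : ℤ) : Prop where
  pos : 0 < a
  coprime : Int.gcd (Int.gcd a b : ℤ) c = 1
  odd : ¬ (Even (a + b) ∧ Even c)
  disc : ¬ IsSquare (b ^ 2 - 4 * a * c)

/-- The number of the residues `m` modulo `d` with `d ∣ f m`. -/
def roots (a b c : ℤ) (d : ℕ) : ℕ :=
  ((Finset.range d).filter (fun m : ℕ => (d : ℤ) ∣ val a b c m)).card

/-- The partial products of the second product in the definition of `C(a,b,c)`. -/
noncomputable def partialProduct (a b c : ℤ) (N : ℕ) : ℝ :=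
  ∏ p ∈ (Finset.range (N + 1)).filter (fun p : ℕ => Nat.Prime p ∧ 3 ≤ p ∧ ¬ ((p : ℤ) ∣ a)),
    (1 - (jacobiSym (b ^ 2 - 4 * a * c) p : ℝ) / ((p : ℝ) - 1))

/-- The factors of `C(a,b,c)` before the second product. -/
noncomputable def finiteFactor (a b : ℤ) : ℝ :=
  (if Even (a + b) then (1 : ℝ) else 1 / 2) *
    (∏ p ∈ (Int.gcd a b).primeFactors.filter (fun p : ℕ => 3 ≤ p), ((p : ℝ) / ((p : ℝ) - 1)))

/-- The integers of `(X, X + H]` in the class `r` modulo `Q`. -/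
def cls (X H Q : ℕ) (r : ℤ) : Finset ℕ :=
  (Finset.Ioc X (X + H)).filter (fun n : ℕ => (Q : ℤ) ∣ (n : ℤ) - r)

/-- The sieve density of `f` outside of `Q`: the product of `1 - ω(p) / p` over the primes `p < z`
which do not divide `Q`. -/
noncomputable def density (a b c : ℤ) (Q : ℕ) (z : ℝ) : ℝ :=
  ∏ p ∈ (Finset.range ⌈z⌉₊).filter (fun p => p.Prime ∧ ¬ p ∣ Q), (1 - (roots a b c p : ℝ) / p)

/-- The product of `1 - ω(p) / p` over the primes `p` dividing `Q`. -/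
noncomputable def classFactor (a b c : ℤ) (Q : ℕ) : ℝ :=
  ∏ p ∈ Q.primeFactors, (1 - (roots a b c p : ℝ) / p)

open Classical in
/-- The number of the `n` of the class with `d ∣ f n`. -/
noncomputable def divCount (a b c : ℤ) (d X H Q : ℕ) (r : ℤ) : ℕ :=
  ((cls X H Q r).filter (fun n : ℕ => (d : ℤ) ∣ val a b c n)).card

open Classical in
/-- The number of the `n` of the class such that `f n` has no prime factor below `z`. -/
noncomputable def roughCount (a b c : ℤ) (z : ℝ) (X H Q : ℕ) (r : ℤ) : ℕ :=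
  ((cls X H Q r).filter (fun n : ℕ => ∀ p : ℕ, p.Prime → (p : ℤ) ∣ val a b c n → z ≤ p)).card

open Classical in
/-- The number of the `n` of the class such that `f n` is prime. -/
noncomputable def primeCount (a b c : ℤ) (X H Q : ℕ) (r : ℤ) : ℕ :=
  ((cls X H Q r).filter (fun n : ℕ => Prime (val a b c n))).card

/-- For some `δ > 0`, the assertion `P X H Q r` holds for all large `X`, all `H` with
`X ^ (1 - δ) ≤ H ≤ X / 2`, all `Q ≤ X ^ δ` and all classes `r` modulo `Q` with `f r` prime to `Q`. -/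
def InAllClasses (a b c : ℤ) (P : ℕ → ℕ → ℕ → ℤ → Prop) : Prop :=
  ∃ δ : ℝ, 0 < δ ∧ ∀ᶠ X : ℕ in atTop, ∀ H : ℕ, (X : ℝ) ^ (1 - δ) ≤ H → 2 * H ≤ X →
    ∀ (Q : ℕ) (r : ℤ), 1 ≤ Q → (Q : ℝ) ≤ (X : ℝ) ^ δ → IsCoprime (val a b c r) Q → P X H Q r

/-- **Equidistribution in bilinear form**, with the exponents `1 - ε` and `1 / 12 - ε`, in all
classes: for all coefficients `u m` and `v n` of absolute value at most one, supported on squarefree
numbers prime to `2 a Q`, `m ≤ X ^ (1 - ε)` and `n ≤ X ^ (1 / 12 - ε)`, the `n` without prime factors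
`< X ^ ρ`, the moduli `m n` with coprime `m` and `n` together give the expected count, up to
`H X ^ (- δ)`. -/
def BilinearLevel (a b c : ℤ) : Prop :=
  ∀ ε ρ : ℝ, 0 < ε → 0 < ρ → ∃ δ : ℝ, 0 < δ ∧ ∀ᶠ X : ℕ in atTop,
    ∀ H : ℕ, (X : ℝ) ^ (1 - δ) ≤ H → 2 * H ≤ X → ∀ (Q : ℕ) (r : ℤ), 1 ≤ Q →
    ∀ M N : ℕ, (M : ℝ) ≤ (X : ℝ) ^ (1 - ε) → (N : ℝ) ≤ (X : ℝ) ^ (1 / 12 - ε) →
    ∀ u v : ℕ → ℝ, (∀ m, |u m| ≤ 1) →
      (∀ m, u m ≠ 0 → Squarefree m ∧ Nat.Coprime m (2 * a.natAbs * Q)) →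
      (∀ n, |v n| ≤ 1) → (∀ n, v n ≠ 0 → Squarefree n ∧ Nat.Coprime n (2 * a.natAbs * Q) ∧
        ∀ p ∈ n.primeFactors, (X : ℝ) ^ ρ ≤ p) →
      |∑ m ∈ Finset.Icc 1 M, ∑ n ∈ (Finset.Icc 1 N).filter (fun n => Nat.Coprime m n),
        u m * v n * ((divCount a b c (m * n) X H Q r : ℝ) -
          (H : ℝ) / Q * ((roots a b c (m * n) : ℝ) / ((m * n : ℕ) : ℝ)))| ≤ H * (X : ℝ) ^ (-δ)

theorem to_half (b : ℤ) (P : ℕ → ℕ → Prop) (δ : ℝ)
    (h : ∀ᶠ X : ℕ in atTop, ∀ H : ℕ, (X : ℝ) ^ (1 - δ) ≤ H → (H : ℤ) + |b| ≤ X → P X H) :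
    ∀ᶠ X : ℕ in atTop, ∀ H : ℕ, (X : ℝ) ^ (1 - δ) ≤ H → 2 * H ≤ X → P X H := by
  filter_upwards [h, eventually_ge_atTop (2 * b.natAbs)] with X h1 h2
  intro H h3 h4
  apply h1 H h3
  have h5 : |b| = (b.natAbs : ℤ) := Int.abs_eq_natAbs b
  omega

theorem divCount_eq (A : ℕ) (b c : ℤ) (d X H Q : ℕ) (r : ℤ) :
    (divCount A b c d X H Q r : ℝ) = Pool.Agent.H543.DP.cF A b c X H Q r d := by
  unfold divCount Pool.Agent.H543.DP.cF
  congr 2
  ext n
  rw [mem_filter, mem_filter, Pool.Agent.H543.DP.dvd_NV]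
  rfl

theorem bilinear (A : ℕ) (b c : ℤ) (hA : 1 ≤ A)
    (hna : ¬ IsSquare (-(Pool.Agent.H543.DP.dt A b c))) : BilinearLevel A b c := by
  intro ε ρ hε hρ
  obtain ⟨δ, hδ, h⟩ := Pool.Agent.H543.DP.bil_f Pool.Agent.Y346.PA.kl A b c hA hna ε ρ hε hρ
  refine ⟨δ, hδ, ?_⟩
  have h2 := to_half b _ δ h
  filter_upwards [h2] with X h3
  intro H hH1 hH2 Q r hQ M N hM hN u v hu hu2 hv hv2
  have h4 := h3 H hH1 hH2 Q r hQ M N hM hN u v hu (fun m hm => by
    have h5 := hu2 m hm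
    rw [Int.natAbs_natCast] at h5
    exact h5) hv (fun n hn => by
    have h5 := hv2 n hn
    rw [Int.natAbs_natCast] at h5
    exact h5)
  refine le_trans (le_of_eq ?_) h4
  congr 1
  apply sum_congr rfl
  intro m _
  apply sum_congr rfl
  intro n _
  rw [divCount_eq]
  rfl

open Classical in
/-- **Quadratic polynomials in short intervals and in residue classes, beyond the level one.** -/
theorem result :
    ∃ F f : ℝ → ℝ, LinearSieve F f ∧ (∀ s : ℝ, 1 ≤ s → 1 ≤ F s ∧ f s ≤ 1) ∧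
      (∀ s : ℝ, 2 < s → 0 < f s) ∧ Tendsto F atTop (𝓝 1) ∧ Tendsto f atTop (𝓝 1) ∧
      ∀ a b c : ℤ, Admissible a b c → BilinearLevel a b c ∧
        (∀ θ s ε : ℝ, 0 < θ → θ < 13 / 12 → 1 ≤ s → 0 < ε → InAllClasses a b c fun X H Q r =>
          (f s - ε) * ((H : ℝ) / Q * density a b c Q ((X : ℝ) ^ (θ / s))) ≤
            (roughCount a b c ((X : ℝ) ^ (θ / s)) X H Q r : ℝ) ∧
          (roughCount a b c ((X : ℝ) ^ (θ / s)) X H Q r : ℝ) ≤
            (F s + ε) * ((H : ℝ) / Q * density a b c Q ((X : ℝ) ^ (θ / s)))) ∧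
        (∃ S : ℝ, 0 < S ∧ Tendsto (partialProduct a b c) atTop (𝓝 S) ∧
          Tendsto (fun z : ℝ => density a b c 1 z * Real.log z) atTop
            (𝓝 (2 * finiteFactor a b * S * Real.exp (-Real.eulerMascheroniConstant))) ∧
          ∀ ε : ℝ, 0 < ε → InAllClasses a b c fun X H Q r =>
            (primeCount a b c X H Q r : ℝ) ≤ (48 / 13 + ε) * (finiteFactor a b * S) *
              ((H : ℝ) / (Q * classFactor a b c Q * Real.log X))) ∧
        (∀ η : ℝ, 0 < η → η < 13 / 24 → ∃ κ : ℝ, 0 < κ ∧ InAllClasses a b c fun X H Q r =>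
          κ * ((H : ℝ) / (Q * Real.log X)) ≤ (((cls X H Q r).filter (fun n : ℕ =>
            ∀ p : ℕ, p.Prime → (p : ℤ) ∣ val a b c n → (n : ℝ) ^ η < p)).card : ℝ)) ∧
        (∃ κ : ℝ, 0 < κ ∧ InAllClasses a b c fun X H Q r =>
          κ * ((H : ℝ) / (Q * Real.log X)) ≤ (((cls X H Q r).filter (fun n : ℕ =>
            (val a b c n).natAbs.primeFactorsList.length ≤ 2 ∧
            ∀ p : ℕ, p.Prime → p ∣ (val a b c n).natAbs →
              (n : ℝ) ^ (23 / 100 : ℝ) ≤ p)).card : ℝ)) ∧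
        ∃ L K : ℝ, ∀ (Q : ℕ) (r : ℤ), 1 ≤ Q → IsCoprime (val a b c r) Q →
          ∃ n : ℕ, (n : ℝ) ≤ K * (Q : ℝ) ^ L ∧ (Q : ℤ) ∣ (n : ℤ) - r ∧ 1 < val a b c n ∧
            (val a b c n).natAbs.primeFactorsList.length ≤ 2 := by
  obtain ⟨A0, F, f, hSF⟩ := Pool.Agent.W366.DC.SFX
  have hA0 : A0 = 2 * Real.exp Real.eulerMascheroniConstant :=
    Pool.Agent.Y882.JR.A0_eq Pool.Agent.Y445.JRB.t hSF
  refine ⟨F, f, ?_, fun s hs => ⟨hSF.F1 s hs, hSF.f1 s hs⟩,
    fun s hs => Pool.Agent.H543.DG.f_low hSF s hs, Pool.Agent.Y882.JR.F_lim hSF,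
    Pool.Agent.Y882.JR.f_lim hSF, ?_⟩
  · constructor
    · exact hSF.cF
    · exact hSF.cf
    · intro s h1 h3
      rw [hSF.F3 s h1 h3, ← hA0]
      have : s ≠ 0 := by linarith
      field_simp
    · exact hSF.f2
    · intro s hs
      rw [← hA0]
      exact hSF.eF s hs
    · exact hSF.ef
  · intro a b c hadm
    obtain ⟨A, hAa⟩ := Int.eq_ofNat_of_zero_le hadm.pos.le
    have hA : 1 ≤ A := by
      have := hadm.pos
      omega
    have hna : ¬ IsSquare (-(Pool.Agent.H543.DP.dt A b c)) := by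
      have h1 := hadm.disc
      have h2 : -(Pool.Agent.H543.DP.dt A b c) = b ^ 2 - 4 * a * c := by
        unfold Pool.Agent.H543.DP.dt
        rw [hAa]
        ring
      rw [h2]
      exact h1
    have hg := hadm.coprime
    have ho := hadm.odd
    rw [hAa] at hg ho
    subst hAa
    obtain ⟨S, hS0, hS⟩ := Pool.Agent.H543.DP.cpr_conv A b c hA hna
    have hP2 := Pool.Agent.H543.DP.p2_f Pool.Agent.Y346.PA.kl A b c hA hna hg ho
    refine ⟨bilinear A b c hA hna, ?_, ⟨S, hS0, hS, ?_, ?_⟩, ?_, ?_, ?_⟩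
    · intro θ s ε h1 h2 h3 h4
      obtain ⟨δ, hδ, h5⟩ := Pool.Agent.H543.DP.lin_f Pool.Agent.Y346.PA.kl A b c hA hna A0 F f hSF
        θ s h1 h2 h3 ε h4
      exact ⟨δ, hδ, to_half b _ δ h5⟩
    · exact Pool.Agent.H543.DP.Df_lim A b c hA hg ho S hS
    · intro ε hε
      obtain ⟨δ, hδ, h5⟩ := Pool.Agent.H543.DP.prime_f Pool.Agent.Y346.PA.kl A b c hA hna hg ho
        A0 F f hSF hA0 S hS0 hS ε hε
      exact ⟨δ, hδ, to_half b _ δ h5⟩
    · intro η h1 h2
      obtain ⟨δ, hδ, κ, hκ, h5⟩ := Pool.Agent.H543.DP.rgh_f Pool.Agent.Y346.PA.kl A b c hA hna hg ho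
        A0 F f hSF S hS0 hS η h1 h2
      exact ⟨κ, hκ, δ, hδ, to_half b _ δ h5⟩
    · obtain ⟨δ, hδ, κ, hκ, h5⟩ := hP2
      exact ⟨κ, hκ, δ, hδ, to_half b _ δ h5⟩
    · obtain ⟨δ, hδ, κ, hκ, h5⟩ := hP2
      have h6 := to_half b _ δ h5
      have ev1 : ∀ᶠ X : ℕ in atTop, (3 : ℝ) ≤ (X : ℝ) ^ δ :=
        tendsto_natCast_atTop_atTop.eventually
          ((tendsto_rpow_atTop hδ).eventually_ge_atTop _)
      obtain ⟨X0, hX0⟩ := eventually_atTop.1 (h6.and (ev1.and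
        (eventually_ge_atTop (4 * b.natAbs + 4 * c.natAbs + 4))))
      refine ⟨1 / δ, 2 * (X0 + 2), ?_⟩
      intro Q r hQ hc
      have hQ1 : (1 : ℝ) ≤ Q := by exact_mod_cast hQ
      have hQL : (1 : ℝ) ≤ (Q : ℝ) ^ (1 / δ) := Real.one_le_rpow hQ1 (by positivity)
      obtain ⟨X, hX⟩ : ∃ X : ℕ, X = X0 + ⌈(Q : ℝ) ^ (1 / δ)⌉₊ := ⟨_, rfl⟩
      have hXle : (X : ℝ) ≤ X0 + ((Q : ℝ) ^ (1 / δ) + 1) := by
        rw [hX]
        push_cast
        have := (Nat.ceil_lt_add_one (show (0 : ℝ) ≤ (Q : ℝ) ^ (1 / δ) by positivity)).le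
        linarith
      have hXge : (Q : ℝ) ^ (1 / δ) ≤ X := by
        rw [hX]
        push_cast
        have h1 := Nat.le_ceil ((Q : ℝ) ^ (1 / δ))
        have h2 : (0 : ℝ) ≤ X0 := Nat.cast_nonneg _
        linarith
      obtain ⟨h7, h8, h9⟩ := hX0 X (by omega)
      have hX4 : 4 ≤ X := by omega
      have hX4r : (4 : ℝ) ≤ X := by exact_mod_cast hX4
      have hXp : (0 : ℝ) < X := by linarith
      have hQX : (Q : ℝ) ≤ (X : ℝ) ^ δ := by
        calc (Q : ℝ) = ((Q : ℝ) ^ (1 / δ)) ^ δ := by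
              rw [← Real.rpow_mul (by linarith), one_div_mul_cancel hδ.ne', Real.rpow_one]
          _ ≤ (X : ℝ) ^ δ := Real.rpow_le_rpow (by positivity) hXge hδ.le
      have hHX : (X : ℝ) ^ (1 - δ) ≤ ((X / 2 : ℕ) : ℝ) := by
        have h1 : X ≤ 2 * (X / 2) + 1 := by omega
        have h2 : (X : ℝ) ≤ 2 * ((X / 2 : ℕ) : ℝ) + 1 := by exact_mod_cast h1
        have h3 : (X : ℝ) ^ (1 - δ) * 3 ≤ X := by
          calc (X : ℝ) ^ (1 - δ) * 3 ≤ (X : ℝ) ^ (1 - δ) * (X : ℝ) ^ δ :=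
                mul_le_mul_of_nonneg_left h8 (by positivity)
            _ = X := by
                rw [← Real.rpow_add hXp]
                simp
        linarith
      have h10 := h7 (X / 2) hHX (by omega) Q r hQ hQX hc
      have hlX : 0 < Real.log X := Real.log_pos (by linarith)
      have hH0 : (0 : ℝ) < ((X / 2 : ℕ) : ℝ) := by
        have : 0 < X / 2 := by omega
        exact_mod_cast this
      have h11 : 0 < κ * (((X / 2 : ℕ) : ℝ) / (Q * Real.log X)) := by positivity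
      have h12 := lt_of_lt_of_le h11 h10
      have h13 : 0 < ((Pool.Agent.H543.DP.NS X (X / 2) Q r).filter (fun n : ℕ =>
          (Pool.Agent.H543.DP.NV A b c n).primeFactorsList.length ≤ 2 ∧
          ∀ p : ℕ, p.Prime → p ∣ Pool.Agent.H543.DP.NV A b c n →
            (n : ℝ) ^ (23 / 100 : ℝ) ≤ p)).card := by
        exact_mod_cast h12
      obtain ⟨n, hn⟩ := card_pos.1 h13
      rw [mem_filter] at hn
      obtain ⟨hn1, hn2, -⟩ := hn
      unfold Pool.Agent.H543.DP.NS at hn1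
      rw [mem_filter, mem_Ioc] at hn1
      obtain ⟨⟨hn3, hn4⟩, hn5⟩ := hn1
      refine ⟨n, ?_, hn5, ?_, hn2⟩
      · have h14 : n ≤ 2 * X := by omega
        have h15 : (n : ℝ) ≤ 2 * X := by exact_mod_cast h14
        have h16 : (0 : ℝ) ≤ X0 := Nat.cast_nonneg _
        calc (n : ℝ) ≤ 2 * (X0 + ((Q : ℝ) ^ (1 / δ) + 1)) := by linarith
          _ ≤ 2 * (X0 + 2) * (Q : ℝ) ^ (1 / δ) := by nlinarith
      · have h17 : (X : ℤ) < n := by exact_mod_cast hn3
        have hAi : (1 : ℤ) ≤ A := by exact_mod_cast hA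
        have hB := neg_abs_le b
        have hC := neg_abs_le c
        have hB2 : |b| = (b.natAbs : ℤ) := Int.abs_eq_natAbs b
        have hC2 : |c| = (c.natAbs : ℤ) := Int.abs_eq_natAbs c
        have hX' : 4 * |b| + 4 * |c| + 4 ≤ (X : ℤ) := by
          rw [hB2, hC2]
          exact_mod_cast h9
        have hB3 := abs_nonneg b
        have hC3 := abs_nonneg c
        unfold val
        have e1 : (n : ℤ) ^ 2 ≤ A * (n : ℤ) ^ 2 := by nlinarith [sq_nonneg (n : ℤ)]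
        have e2 : -(|b| * n) ≤ b * n := by nlinarith
        have e3 : 4 * (|b| * n) ≤ n * n := by nlinarith
        have e4 : 4 * |c| ≤ n * n := by nlinarith
        have e5 : (16 : ℤ) ≤ n * n := by nlinarith
        have e6 : (0 : ℤ) ≤ |b| * n := by positivity
        show 1 < (A : ℤ) * (n : ℤ) ^ 2 + b * n + c
        nlinarith

end Pool.Agent.Results.MP_a17b09_nt.BeyondLevelOneInClasses
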