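import Mathlib
import Pool.Agent.H568.LB.LoQ
import Pool.Agent.H568.PH.Pair

/-!
# Primes in almost all quadratic polynomials of height `H`, for lengths up to `H^(16/5-ε)`

The leading coefficient `a > 0` is fixed. For 100 percent of the pairs of integers `|b|, |c| ≤ H` and every length `N`
with `H² ≤ N ≤ H^(3-ε)` every interval in `[1, N]` contains at least `1/2 - η` times and at most `5/3 + η` times as many
primes `a m² + b m + c` as Conjecture F predicts, with the full constant; and for `H² ≤ N ≤ H^(16/5-ε)` at least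
`1/10 - η` times as many. There are only about `N^(5/8)` polynomials, and their values are as large as `N²`. The factor
`5/3` is below the factor `2` of the parity barrier. (The library has the factor `3/4` for `N ≤ H^(20/7-ε)`.) Moreover, for
`H² ≤ N ≤ H^(4-ε)`, at least `κ H²` of the pairs have at least `κ N / log N` primes `a m² + b m + c`, `m ≤ N`.

Proof. Completing the square, the pairs are a family of about `H²` constant terms, which are made positive by a second
shift: it suffices to consider `a n² + b n + c` with `b² ≤ Λ C` and almost all `c ≤ C`, `C ≥ x^(γ+ε)`, `γ = 2/3` or `5/8`.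
The divisors `j` of the values with `x^(3/2-γ+ε') < j < x^(1-ε')` are accessible on average over `c` (a large sieve over the
roots of the congruences; `N792`, `N791` of the library), and so are the smaller divisors. The values with a divisor near
`x` are negligible: for `C ≥ x^(3/5)` this is shown here with the double large sieve, which replaces the bound for one
exponential sum (files `X3W` and `LB/P/BLK`, `LB/P/TRB`, `LB/P/X3D`). After a sieve by the primes `≤ x^(2 γ - 1 + ε')` what is
left are products of at most seven primes. For `γ = 2/3`: weights with at most one or two large prime factors and type II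
corrections (files `C1`, `Mn1` to `Mn9`). For `γ = 5/8`: the weight is `μ(d)` with up to seven prime factors, except that the
pairs `q < p` with `q p ≤ U`, `q² p > V` are dropped (`U V` is the size of the values), and bilinear corrections remove the
products of three primes with a large factor and part of the products of five primes; the sum of what is lost is at most
`9/20` of `x / log x` (all primes: `1/2`): integrals over the simplex of the exponents, bounded by Riemann sums which are
evaluated by the kernel (files `LB/Stm`, `LB/Eq5`, `LB/Ls5`, `LB/Low5`, `LB/P/N3` to `LB/P/N7`). For `N ≤ H^(4-ε)` (files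
`PH/*`): the numbers `a n² - c`, `c ≤ C`, `C ≥ N^(1/2+ε)`, are detected by a triangle function of `√(m/a)`; Vaughan's identity and
the double large sieve give a lower bound of the right order for the primes among them (the method of Balog and Harman for the
primes with `{√p} < p^(-1/4+ε)`); the second moment over `c` is bounded by the upper bound sieve; and `n = m + s`.
-/

set_option autoImplicit false

namespace Pool.Agent.Results.MP_a17b09_nt.HalfBeyondHeight

open Finset Filter Topology

/-- the triple `(a, b, c)` is admissible -/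
def Admissible (a b c : ℤ) : Prop :=
  0 < a ∧ (∀ d : ℤ, d ∣ a → d ∣ b → d ∣ c → IsUnit d) ∧ ¬ ((2 : ℤ) ∣ a + b ∧ (2 : ℤ) ∣ c) ∧
    ¬ IsSquare (b ^ 2 - 4 * a * c)

/-- the number of `u < m ≤ v` for which `a m² + b m + c` is a (positive) prime -/
def primeCount (a b c : ℤ) (u v : ℕ) : ℕ :=
  #((Ioc u v).filter (fun m : ℕ => (a * (m : ℤ) ^ 2 + b * m + c).toNat.Prime))

/-- `2` if `a + b` is even and `1` if `a + b` is odd (twice the `ε` of the problem) -/
noncomputable def eps (a b : ℤ) : ℝ := if (2 : ℤ) ∣ a + b then 2 else 1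

/-- the product `∏_{p > 2, p ∣ gcd(a, b)} p / (p - 1)` -/
noncomputable def gcdProd (a b : ℤ) : ℝ :=
  ∏ p ∈ (Int.gcd a b).primeFactors.filter (fun p => 2 < p), (p : ℝ) / (p - 1)

/-- the product `∏_{2 < p ≤ z, p ∤ a} (1 - (D / p) / (p - 1))`, where `D = b² - 4 a c` -/
noncomputable def partialC (a b c : ℤ) (z : ℕ) : ℝ :=
  ∏ p ∈ (Icc 3 z).filter (fun p : ℕ => p.Prime ∧ ¬ (p : ℤ) ∣ a),
    (1 - (jacobiSym (b ^ 2 - 4 * a * c) p : ℝ) / (p - 1))

/-- the sum of `1 / log |a m² + b m + c|` over the `u < m ≤ v` with `|a m² + b m + c| ≥ 2` -/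
noncomputable def logSum (a b c : ℤ) (u v : ℕ) : ℝ :=
  ∑ m ∈ (Ioc u v).filter (fun m : ℕ => 2 ≤ |a * (m : ℤ) ^ 2 + b * m + c|),
    1 / Real.log |(a : ℝ) * m ^ 2 + b * m + c|

/-- The product `C(a, b, c)` converges to a number `S > 0`, and `M = eps(a, b) · S · ∏_{p > 2, p ∣ gcd(a, b)} p / (p - 1)`
(the constant of Hardy and Littlewood for the sum of `1 / log |f|`) is at least `θ`; and every interval `(u, v]` with
`v ≤ x` contains at least `κ M ∑_{u < m ≤ v} 1 / log |f(m)| - η M x / log x` integers `m` for which `f(m) = a m² + b m + c` is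
prime, and if the proposition `B` holds, it contains at most `(5/3) M ∑_{u < m ≤ v} 1 / log |f(m)| + η M x / log x` such `m`. -/
def Bounds (κ : ℝ) (B : Prop) (a : ℤ) (θ η : ℝ) (x : ℕ) (b c : ℤ) : Prop :=
  ∃ S : ℝ, 0 < S ∧ Tendsto (fun z => partialC a b c z) atTop (𝓝 S) ∧ θ ≤ eps a b * S * gcdProd a b ∧
    ∀ u v : ℕ, u ≤ v → v ≤ x →
      κ * (eps a b * S * gcdProd a b * logSum a b c u v) -
        η * (eps a b * S * gcdProd a b * x / Real.log x) ≤ (primeCount a b c u v : ℝ) ∧
      (B → (primeCount a b c u v : ℝ) ≤ 5 / 3 * (eps a b * S * gcdProd a b * logSum a b c u v) +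
        η * (eps a b * S * gcdProd a b * x / Real.log x))

open Classical in
/-- the factor of the lower bound: `1/2` for `N ≤ H^(3-ε)`, and `1/10` beyond -/
noncomputable def factor (ε : ℝ) (H N : ℕ) : ℝ := if (N : ℝ) ≤ (H : ℝ) ^ (3 - ε) then 1 / 2 else 1 / 10

lemma logSum_eq (a b c : ℤ) (u v : ℕ) :
    logSum a b c u v = ∑ m ∈ Ioc u v, 1 / Real.log ((a : ℝ) * m ^ 2 + b * m + c) := by
  unfold logSum
  rw [sum_filter]
  refine sum_congr rfl fun n _ => ?_
  have e : ((a * (n : ℤ) ^ 2 + b * n + c : ℤ) : ℝ) = (a : ℝ) * n ^ 2 + b * n + c := by push_cast; ring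
  split_ifs with h
  · rw [Real.log_abs]
  · rw [← e]
    have h' : a * (n : ℤ) ^ 2 + b * n + c = 0 ∨ a * (n : ℤ) ^ 2 + b * n + c = 1 ∨ a * (n : ℤ) ^ 2 + b * n + c = -1 := by
      rw [not_le] at h
      have := abs_lt.1 h
      omega
    rcases h' with h | h | h <;> rw [h] <;> simp

lemma bounds_of {a : ℤ} {κ θ η : ℝ} {B : Prop} {x : ℕ} {b c : ℤ} (h : Pool.Agent.H568.LB.QBk a κ (5 / 3) B θ η x b c)
    (hadm : Admissible a b c) : Bounds κ B a θ η x b c := by
  obtain ⟨S, m1, m2, m3, m4⟩ := h hadm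
  refine ⟨S, m1, m2, m3, fun u v huv hvx => ?_⟩
  rw [logSum_eq]
  exact m4 u v huv hvx

/-- **Primes in 100 percent of the quadratic polynomials of height `H`, for all lengths `H² ≤ N ≤ H^(16/5-ε)`, and in a
positive proportion of them for `N ≤ H^(4-ε)`.** Let
`a > 0`, `ε > 0`, `η > 0`. (1) There are `θ > 0` and `H0` such that for `H ≥ H0` and all `N` with `H² ≤ N ≤ H^(16/5-ε)` all but at
most `η H²` of the pairs `(b, c)` of integers with `|b|, |c| ≤ H` and `(a, b, c)` admissible satisfy `Bounds`: every interval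
`(u, v]` with `v ≤ N` contains at least `1/10` times (and for `N ≤ H^(3-ε)` at least `1/2` times and at most `5/3` times) the
expected number of `m` with `a m² + b m + c` prime, up to an error `η M N / log N`. (2) There are `κ > 0` and `H1` such that for
`H ≥ H1` and all `N` with `H² ≤ N ≤ H^(4-ε)` at least `κ H²` of the pairs `(b, c)` of integers with `|b|, |c| ≤ H` have at least
`κ N / log N` integers `1 ≤ m ≤ N` with `a m² + b m + c` prime. -/
theorem result (a : ℤ) (ha : 0 < a) (ε η : ℝ) (hε : 0 < ε) (hη : 0 < η) :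
    (∃ θ : ℝ, 0 < θ ∧ ∃ H0 : ℕ, ∀ H : ℕ, H0 ≤ H → ∀ N : ℕ, H ^ 2 ≤ N → (N : ℝ) ≤ (H : ℝ) ^ (16 / 5 - ε) →
      ∃ Ex ⊆ Icc (-(H : ℤ)) H ×ˢ Icc (-(H : ℤ)) H, (#Ex : ℝ) ≤ η * H ^ 2 ∧
        ∀ q ∈ Icc (-(H : ℤ)) H ×ˢ Icc (-(H : ℤ)) H, q ∉ Ex → Admissible a q.1 q.2 →
          Bounds (factor ε H N) ((N : ℝ) ≤ (H : ℝ) ^ (3 - ε)) a θ η N q.1 q.2) ∧
    ∃ κ : ℝ, 0 < κ ∧ ∃ H1 : ℕ, ∀ H : ℕ, H1 ≤ H → ∀ N : ℕ, H ^ 2 ≤ N → (N : ℝ) ≤ (H : ℝ) ^ (4 - ε) →
      κ * (H : ℝ) ^ 2 ≤ (#((Icc (-(H : ℤ)) H ×ˢ Icc (-(H : ℤ)) H).filter (fun q : ℤ × ℤ =>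
        κ * (N / Real.log N) ≤ (primeCount a q.1 q.2 0 N : ℝ))) : ℝ) := by
  constructor
  · obtain ⟨θ, hθ, H0, h⟩ := Pool.Agent.H568.LB.pair_both a ha ε η hε hη
    refine ⟨θ, hθ, H0, fun H hH N hN1 hN2 => ?_⟩
    obtain ⟨Ex, k1, k2, k3⟩ := h H hH N hN1 hN2
    exact ⟨Ex, k1, k2, fun q hq hqE hadm => bounds_of (k3 q hq hqE) hadm⟩
  · obtain ⟨A, rfl⟩ : ∃ A : ℕ, a = A := ⟨a.toNat, by omega⟩
    obtain ⟨κ, hκ, H1, h⟩ := Pool.Agent.H568.PH.ph_pair A (by omega) ε hε
    exact ⟨κ, hκ, H1, fun H hH N hN1 hN2 => h H hH N hN1 hN2⟩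

end Pool.Agent.Results.MP_a17b09_nt.HalfBeyondHeight
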