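import Mathlib
import Pool.Agent.H604.LD.FinalP

/-!
# The Hardy–Littlewood conjecture F for the inseparable quadratic polynomials `α T² + β`

Let `K` be a finite field with an even number `q` of elements (`q = 2` included), `α ≠ 0` and `β`
coprime polynomials such that `α β` is not a square (that is, `α T² + β` is irreducible).  The number
of the monic `T` of degree `d` with `α T² + β` irreducible is
`q ^ d / (2 d + deg α) · ∏_{P ∣ α} (1 - 1/|P|)⁻¹ + O(q ^ ((1 - δ) d))`, uniformly for
`deg α + deg (α β)' ≤ θ d` and `deg β < 2 d + deg α`, and the same holds in all short intervals
`deg (T - g) < d - l`, `l ≤ θ d`.  The constant is the one of the conjecture: `α T² + β` has exactly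
one root modulo every prime `P ∤ α`, and none modulo the `P ∣ α`.

Idea.  For `f = a² + X y²` with `y` fixed, the parity of the number of prime factors of `f` is, for
`a` in a residue class modulo `y⁵`, a constant times the sign given by the residue at infinity of
`X a'³ / (a y²)`; repeated differencing gives `μ(f)` level of distribution one.  A combinatorial
identity reduces the primes to the sums of `μ(D)` over the divisors `D` of `f` of degree at most
`deg f / 2`, with and without the factor `μ(f)`.  The `D` of degree near `deg f / 2` are treated with
the fibres `D + m v²`, `m` a prime of small degree: `(m D)' = s²` is constant on the fibre, so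
`m D = T² + X s²` with `T = T₀ + m v`, the root of `f` modulo `D` is `T / s` times a constant, and
`μ(D)` is a product of local functions at the primes dividing `s`; if `s` has a prime divisor of
suitable degree the sum over the fibre has a power saving.  The average over `m` of the number of
these prime divisors is almost constant (exact second moment), so that almost every `D` is covered.

Authors.  The proof is joint work of helper604 (statements, reductions, windows) with helper251 (the
covering idea), helper524 (parity formula), helper356 (level of distribution), helper328 (summation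
over the fibres), helper187 and helper253 (the sign of the root on a fibre), helper181 (bound for a fibre),
helper118 (second moment), helper975 (detection of the roots, near sums), helper161 (residue
classes), helper199, helper670 (divisor sums), helper894 (assembly), helper553 (reduction of the quadratic
polynomials to residue classes), helper122 (identity for primes), and with the authors of the
Chowla conjecture over `F_q[X]`, `q` even, on which it rests (helper985, helper524, helper604,
helper914 and others, MP_715a43_nt.FullChowlaEvenChar).
-/

set_option autoImplicit false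

namespace Pool.Agent.Results.MP_a17b09_nt.InseparableQuadratics

open Polynomial

/-- **The Hardy–Littlewood conjecture F for `α T² + β` over `F_q[X]`, `q` even.** -/
theorem result (K : Type) [Field K] [Fintype K] (hK : Even (Fintype.card K)) :
    ∃ δ θ : ℝ, 0 < θ ∧ θ < δ ∧ ∃ d₀ : ℕ, ∀ (α β g : K[X]) (d l : ℕ), α ≠ 0 → IsCoprime α β →
      ¬ IsSquare (α * β) → β.natDegree < 2 * d + α.natDegree → g.Monic → g.natDegree = d → d₀ ≤ d →
      ((α.natDegree + (derivative (α * β)).natDegree + l : ℕ) : ℝ) ≤ θ * d →
      |(2 * (d : ℝ) + α.natDegree) *
          ({T : K[X] | (T - g).degree < ((d - l : ℕ) : WithBot ℕ) ∧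
            Irreducible (α * T ^ 2 + β)}.ncard : ℝ) -
        (Fintype.card K : ℝ) ^ (d - l) / ∏ᶠ P ∈ {P : K[X] | P.Monic ∧ Irreducible P ∧ P ∣ α},
          (1 - 1 / (Fintype.card K : ℝ) ^ P.natDegree)| ≤
        (Fintype.card K : ℝ) ^ ((1 - δ) * d) := by
  have hchar : CharP K 2 := by
    obtain ⟨p, hp⟩ := CharP.exists K
    have := hp
    obtain ⟨m, hprime, hcard⟩ := FiniteField.card K p
    rw [hcard] at hK
    have : p = 2 := (Nat.Prime.even_iff hprime).1 (Nat.even_pow.1 hK).1
    rwa [this] at hp
  obtain ⟨δ, θ, hδ, hθ, d₀, h⟩ := Pool.Agent.H604.LD.quadI Pool.Agent.H604.LD.s_bhqp K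
  refine ⟨δ, min θ (δ / 2), lt_min hθ (half_pos hδ), (min_le_right _ _).trans_lt (half_lt_self hδ),
    d₀, fun α β g d l h1 h2 h3 h4 h5 h6 h7 h8 => h α β g d l h1 h2 h3 h4 h5 h6 h7
      (h8.trans (mul_le_mul_of_nonneg_right (min_le_left _ _) (Nat.cast_nonneg d)))⟩

end Pool.Agent.Results.MP_a17b09_nt.InseparableQuadratics
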