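import Pool.Agent.H561.PG.Q3

set_option autoImplicit false

/-! Conjecture F of Hardy and Littlewood for small arguments and almost every constant term. -/

namespace Pool.Agent.Results.MP_a17b09_nt.SmallArgumentsAlmostAll

open Finset

/-- the triples of the problem (with `a > 0`) -/
def Admissible (a b c : ℤ) : Prop :=
  Int.gcd (Int.gcd a b) c = 1 ∧ ¬ (Even (a + b) ∧ Even c) ∧ ¬ IsSquare (b ^ 2 - 4 * a * c)

/-- the partial products of `C(a, b, c)` -/
noncomputable def partialC (a b c : ℤ) (z : ℕ) : ℝ :=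
  (if Odd (a + b) then 1 / 2 else 1) *
    (∏ p ∈ (Icc 3 z).filter (fun p : ℕ => p.Prime ∧ (p : ℤ) ∣ a ∧ (p : ℤ) ∣ b), (p : ℝ) / (p - 1)) *
    ∏ p ∈ (Icc 3 z).filter (fun p : ℕ => p.Prime ∧ ¬ (p : ℤ) ∣ a),
      (1 - (jacobiSym (b ^ 2 - 4 * a * c) p : ℝ) / (p - 1))

/-- the number of the integers `t` of `(u, v]` for which `|a t ^ 2 + b t + c|` is prime -/
noncomputable def count (a b c : ℤ) (u v : ℝ) : ℕ :=
  ((Ioc ⌊u⌋₊ ⌊v⌋₊).filter (fun t : ℕ => (a * (t : ℤ) ^ 2 + b * t + c).natAbs.Prime)).card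

/-- the constant `C(a, b, c)` exists and is positive, and the formula of Conjecture F holds in all windows `(u, v]` with
`|c| ^ (1 / 8 + δ) ≤ v`, `v ^ 2 (log |c|) ^ B ≤ |c|`, `v - u ≥ v / (log |c|) ^ W`, up to a relative error `ε` -/
def Holds (a b : ℤ) (δ ε : ℝ) (W B : ℕ) (c : ℤ) : Prop :=
  ∃ C : ℝ, 0 < C ∧ Filter.Tendsto (partialC a b c) Filter.atTop (nhds C) ∧
    ∀ u v : ℝ, 0 ≤ u → (c.natAbs : ℝ) ^ (1 / 8 + δ) ≤ v → v ^ 2 * Real.log c.natAbs ^ B ≤ c.natAbs →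
      v / Real.log c.natAbs ^ W ≤ v - u →
      |(count a b c u v : ℝ) - 2 * C * (v - u) / Real.log c.natAbs| ≤ ε * (2 * C * (v - u) / Real.log c.natAbs)

open Classical in
/-- for all but `O(X / (log X) ^ A)` of the `|c| ≤ X` with `(a, b, c)` admissible, Conjecture F holds for
`a t ^ 2 + b t + c` in all windows of arguments from `|c| ^ (1 / 8 + δ)` to `|c| ^ (1 / 2) / (log |c|) ^ (B / 2)` -/
theorem result (a b : ℤ) (ha : 0 < a) (W A : ℕ) (δ ε : ℝ) (hδ : 0 < δ) (hε : 0 < ε) :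
    ∃ B X₀ : ℕ, ∀ X : ℕ, X₀ ≤ X →
    (((Icc (-(X : ℤ)) X).filter (fun c : ℤ => Admissible a b c ∧ ¬ Holds a b δ ε W B c)).card : ℝ) ≤
      X / Real.log X ^ A := by
  obtain ⟨D, X0, h⟩ := Pool.Agent.H561.PG.quad_all false a b ha W A δ ε hδ hε
  refine ⟨D, X0, fun X hX => ?_⟩
  refine le_trans ?_ (h X hX)
  have hsub : (Icc (-(X : ℤ)) X).filter (fun c : ℤ => Admissible a b c ∧ ¬ Holds a b δ ε W D c) ⊆
      (Icc (-(X : ℤ)) X).filter (fun c : ℤ => c ≠ 0 ∧ Pool.Agent.H561.PG.LS false a b c ∧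
        ¬ Pool.Agent.H561.PG.HoldC false a b δ ε W D c) := by
    intro c hc
    rw [mem_filter] at hc ⊢
    obtain ⟨h1, ⟨hg, h2, hsq⟩, hn⟩ := hc
    have hg' : ∀ p : ℕ, p.Prime → (p : ℤ) ∣ a → (p : ℤ) ∣ b → ¬ (p : ℤ) ∣ c := by
      intro p hp hpa hpb hpc
      have e1 : (p : ℤ) ∣ (Int.gcd a b : ℤ) := Int.dvd_coe_gcd hpa hpb
      have e2 : (p : ℤ) ∣ (Int.gcd (Int.gcd a b) c : ℤ) := Int.dvd_coe_gcd e1 hpc
      rw [hg] at e2
      have e3 : p ∣ 1 := by exact_mod_cast e2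
      exact hp.one_lt.ne' (Nat.dvd_one.1 e3)
    refine ⟨h1, ?_, Pool.Agent.H561.PG.LS_adm hg' h2, ?_⟩
    · intro hc0
      apply hsq
      rw [hc0]
      exact ⟨b, by ring⟩
    · rintro ⟨S, g1, g2, g3⟩
      apply hn
      refine ⟨S / 2, by positivity, ?_, ?_⟩
      · have g4 : Filter.Tendsto (fun z => Pool.Agent.H561.PG.St false z (Pool.Agent.R460.SB.QS (-a) (-b) c) / 2)
          Filter.atTop (nhds (S / 2)) := g2.div_const 2
        refine g4.congr' ?_
        filter_upwards [Filter.eventually_ge_atTop 2] with z hz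
        rw [Pool.Agent.H561.PG.St_cf hg' h2 hz, mul_div_cancel_left₀ _ two_ne_zero]
        rfl
      · intro u v hu hv hvD hvu
        have g5 := g3 u v hu hv hvD hvu
        have e1 : Pool.Agent.H561.PG.lb false v = 1 := by simp [Pool.Agent.H561.PG.lb]
        have e2 : Pool.Agent.H561.PG.cntq false a b c u v = count a b c u v := by
          unfold Pool.Agent.H561.PG.cntq count
          simp
        have e3 : 2 * (S / 2) = S := by ring
        rw [e1, e2, one_mul] at g5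
        rw [e3]
        exact g5
  exact_mod_cast card_le_card hsub

end Pool.Agent.Results.MP_a17b09_nt.SmallArgumentsAlmostAll
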